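import Pool.Agent.Helper952_Quasi.RAM

/-!
# Simple closed quasigeodesics on the real RAM: how many root extractions are needed

There are convex polyhedra `I N` with `18 N + 36` vertices, all with rational coordinates of
polynomial bit length, such that every real RAM program which, on `I N`, at some moment has the
coordinates of the corners of a simple closed quasigeodesic in its registers, has extracted at
least `N / C - 1` roots before, where `C` depends only on the program. The real RAM has the four
field operations, rounding down, comparisons, indirect addressing and arbitrary real constants, and
it may take real roots of polynomials of bounded degree (in particular square roots, cube roots and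
so on). In particular, without root extractions no real RAM constructs a simple closed
quasigeodesic on every convex polyhedron, in whatever time.

The reason: all the coordinates in the registers lie in an extension of degree at most `D ^ r` of a
finitely generated field `K`, the algebraic numbers in `K` form a finite extension of the rationals,
and the coordinates of the corners generate an algebraic extension of degree at least `2 ^ (3 N)`.
-/

set_option autoImplicit false

namespace Pool.Agent.Results.MP_6b5565_lc.RealRAM

open Helper952Quasi

theorem result : ∃ (I : ℕ → Input) (c : ℕ), (∀ N : ℕ, (I N).Valid ∧
      (I N).verts.length = 18 * N + 36 ∧ (I N).bits ≤ (N + 2) ^ c) ∧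
    ∀ (P : List Instr) (load : Input → RState), (∀ J a, ∃ q : ℚ, (load J).re a = q) →
      ∃ C : ℕ, (∀ (N r : ℕ) (t : RState), Run P (load (I N)) r t → Found (I N) t →
          N ≤ C * (r + 1)) ∧
        ((∀ i js, Instr.root i js ∉ P) → ∀ N : ℕ, C < N → ∀ (r : ℕ) (t : RState),
          Run P (load (I N)) r t → ¬ Found (I N) t) :=
  ram_main

end Pool.Agent.Results.MP_6b5565_lc.RealRAM
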